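import Pool.Agent.K4H67.QW.Over

/-!
# The `p`-adic Abel-Jacobi maps of the products `X ^ m × Z`
-/

set_option autoImplicit false

namespace Pool.Agent.K4H67.QW

open Matrix

noncomputable section

universe u v w

variable {X : ChowPowers.{u} ℚ} {Z : ChowOver.{u, w} X}

/-- The data of the `p`-adic Abel-Jacobi maps of the products `X ^ m × Z` of the varieties `X` and `Z`
over the number field `K`, `G` the absolute Galois group of `K`. By the comparison theorem the étale
cohomology of `X ^ m × Z` with coefficients in `ℚ_p` has the basis `(Fin m → X.ι) × Z.ι`. -/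
structure AbelJacobi (Z : ChowOver.{u, w} X) where
  p : ℕ
  prime : Fact p.Prime
  /-- the absolute Galois group of `K` -/
  G : Type v
  group : Group G
  /-- the matrices of the action of `G` on
  `⊕ H ^ (2i-1)(X ^ m × Z, ℚ_p(i)) ⊕ ⊕ H ^ (2i)(X ^ m × Z, ℚ_p(i))` -/
  ρ : ∀ m : ℕ, G → Matrix ((Fin m → X.ι) × Z.ι) ((Fin m → X.ι) × Z.ι) ℚ_[p]
  /-- the cocycle of the Abel-Jacobi map on the homologically trivial cycles `z` on `X ^ m × Z`, with
  values in `⊕ H ^ (2i-1)(X ^ m × Z, ℚ_p(i))` -/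
  aj : ∀ m : ℕ, Z.CH m → G → (Fin m → X.ι) × Z.ι → ℚ_[p]

attribute [instance] AbelJacobi.prime AbelJacobi.group

namespace AbelJacobi

variable (A : AbelJacobi.{u, v, w} Z)

/-- The matrix of the map induced by the correspondence `x × Δ_Z` on the cohomology with coefficients
in `ℚ_p`. -/
def on {a c : ℕ} (x : X.Corr a c) :
    Matrix ((Fin c → X.ι) × Z.ι) ((Fin a → X.ι) × Z.ι) ℚ_[A.p] :=
  (Z.on x).map (algebraMap ℚ ℚ_[A.p])

/-- The coboundary of `w`. -/
def bd {m : ℕ} (w : (Fin m → X.ι) × Z.ι → ℚ_[A.p]) (g : A.G) : (Fin m → X.ι) × Z.ι → ℚ_[A.p] :=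
  A.ρ m g *ᵥ w - w

/-- The function `f` is a coboundary: its class in the Galois cohomology is zero. -/
def IsBoundary (m : ℕ) (f : A.G → (Fin m → X.ι) × Z.ι → ℚ_[A.p]) : Prop := ∃ w, f = A.bd w

/-- The Abel-Jacobi class of `z` in `⊕ H ^ 1(K, H ^ (2i-1)(X ^ m × Z, ℚ_p(i)))` is zero. -/
def IsZero (m : ℕ) (z : Z.CH m) : Prop := A.IsBoundary m (A.aj m z)

/-- The Galois group acts, and its action commutes with correspondences. -/
structure IsGalois : Prop where
  one : ∀ m, A.ρ m 1 = 1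
  mul : ∀ m g h, A.ρ m (g * h) = A.ρ m g * A.ρ m h
  equivariant : ∀ (a c : ℕ) (x : X.Corr a c) (g : A.G), A.on x * A.ρ a g = A.ρ c g * A.on x

/-- The Abel-Jacobi classes are classes of cocycles in the odd part of the cohomology. -/
structure IsCocycle : Prop where
  odd : ∀ (m : ℕ) (z : Z.CH m), Z.cl z = 0 → ∀ g s, A.aj m z g s ≠ 0 →
    Odd (∑ i, X.deg (s.1 i) + Z.deg s.2)
  cocycle : ∀ (m : ℕ) (z : Z.CH m), Z.cl z = 0 → ∀ g h,
    A.aj m z (g * h) = A.aj m z g + A.ρ m g *ᵥ A.aj m z h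

/-- The Abel-Jacobi classes are additive and compatible with correspondences. -/
structure IsNatural : Prop where
  add : ∀ (m : ℕ) (z z' : Z.CH m), Z.cl z = 0 → Z.cl z' = 0 →
    A.IsBoundary m fun g => A.aj m (z + z') g - (A.aj m z g + A.aj m z' g)
  act : ∀ (a c : ℕ) (x : X.Corr a c) (z : Z.CH a), Z.cl z = 0 →
    A.IsBoundary c fun g => A.aj c (Z.act x z) g - A.on x *ᵥ A.aj a z g

/-- The Abel-Jacobi classes are compatible with the multiplication by rational numbers. -/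
structure IsHomogeneous : Prop where
  smul : ∀ (m : ℕ) (r : ℚ) (z : Z.CH m), Z.cl z = 0 →
    A.IsBoundary m fun g => A.aj m (r • z) g - (r : ℚ_[A.p]) • A.aj m z g

/-- The properties of the Abel-Jacobi maps: the Galois group acts, and its action commutes with
correspondences; the Abel-Jacobi classes are classes of cocycles in the odd part of the cohomology, they
are linear and compatible with correspondences. -/
structure IsAbelJacobi : Prop extends A.IsGalois, A.IsCocycle, A.IsNatural, A.IsHomogeneous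

variable {A}

theorem IsBoundary.add {m : ℕ} {f f' : A.G → (Fin m → X.ι) × Z.ι → ℚ_[A.p]} (h : A.IsBoundary m f)
    (h' : A.IsBoundary m f') : A.IsBoundary m fun g => f g + f' g := by
  obtain ⟨w, rfl⟩ := h
  obtain ⟨w', rfl⟩ := h'
  refine ⟨w + w', ?_⟩
  funext g
  simp only [bd, Matrix.mulVec_add]
  abel

theorem IsBoundary.smul {m : ℕ} {f : A.G → (Fin m → X.ι) × Z.ι → ℚ_[A.p]} (h : A.IsBoundary m f)
    (r : ℚ_[A.p]) : A.IsBoundary m fun g => r • f g := by
  obtain ⟨w, rfl⟩ := h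
  refine ⟨r • w, ?_⟩
  funext g
  simp only [bd, Matrix.mulVec_smul, smul_sub]

theorem isZero_add (hA : A.IsAbelJacobi) {m : ℕ} {z z' : Z.CH m} (hz : Z.cl z = 0)
    (hz' : Z.cl z' = 0) (h : A.IsZero m z) (h' : A.IsZero m z') : A.IsZero m (z + z') := by
  have h1 := (hA.add m z z' hz hz').add (h.add h')
  have e : (fun g => A.aj m (z + z') g - (A.aj m z g + A.aj m z' g) +
      (A.aj m z g + A.aj m z' g)) = A.aj m (z + z') := by
    funext g
    abel
  rwa [e] at h1

theorem isZero_smul (hA : A.IsAbelJacobi) {m : ℕ} {z : Z.CH m} (hz : Z.cl z = 0) (r : ℚ)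
    (h : A.IsZero m z) : A.IsZero m (r • z) := by
  have h1 := (hA.smul m r z hz).add (h.smul (r : ℚ_[A.p]))
  have e : (fun g => A.aj m (r • z) g - (r : ℚ_[A.p]) • A.aj m z g +
      (r : ℚ_[A.p]) • A.aj m z g) = A.aj m (r • z) := by
    funext g
    abel
  rwa [e] at h1

theorem isZero_zero (hZ : Z.IsChow) (hA : A.IsAbelJacobi) (m : ℕ) : A.IsZero m (0 : Z.CH m) := by
  have h1 := hA.smul m 0 0 (hZ.cl_zero m)
  have e : (fun g => A.aj m ((0 : ℚ) • (0 : Z.CH m)) g -
      ((0 : ℚ) : ℚ_[A.p]) • A.aj m 0 g) = A.aj m 0 := by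
    funext g
    rw [smul_zero, Rat.cast_zero, zero_smul, sub_zero]
  rwa [e] at h1

theorem isZero_act (hA : A.IsAbelJacobi) {a c : ℕ} (x : X.Corr a c) {z : Z.CH a}
    (hz : Z.cl z = 0) (h : A.IsZero a z) : A.IsZero c (Z.act x z) := by
  obtain ⟨w, hw⟩ := h
  have h1 : A.IsBoundary c fun g => A.on x *ᵥ A.aj a z g := by
    refine ⟨A.on x *ᵥ w, ?_⟩
    funext g
    rw [hw]
    simp only [bd]
    rw [Matrix.mulVec_sub, Matrix.mulVec_mulVec, Matrix.mulVec_mulVec, hA.equivariant]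
  have h2 := (hA.act a c x z hz).add h1
  have e : (fun g => A.aj c (Z.act x z) g - A.on x *ᵥ A.aj a z g + A.on x *ᵥ A.aj a z g) =
      A.aj c (Z.act x z) := by
    funext g
    abel
  rwa [e] at h2

end AbelJacobi

/-- The common kernel of a family of Abel-Jacobi maps (for instance for a prime number, or for a set
of prime numbers) on the homologically trivial cycles on `X ^ m × Z`. -/
def kernel (hZ : Z.IsChow) {S : Type} {A : S → AbelJacobi.{u, v, w} Z}
    (hA : ∀ s, (A s).IsAbelJacobi) (m : ℕ) : Submodule ℚ (Z.CH m) where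
  carrier := {z | Z.cl z = 0 ∧ ∀ s, (A s).IsZero m z}
  zero_mem' := ⟨hZ.cl_zero m, fun s => AbelJacobi.isZero_zero hZ (hA s) m⟩
  add_mem' := by
    rintro z z' ⟨h1, h2⟩ ⟨h3, h4⟩
    exact ⟨by rw [hZ.cl_add, h1, h3, add_zero], fun s =>
      AbelJacobi.isZero_add (hA s) h1 h3 (h2 s) (h4 s)⟩
  smul_mem' := by
    rintro r z ⟨h1, h2⟩
    exact ⟨by rw [hZ.cl_smul, h1, smul_zero], fun s => AbelJacobi.isZero_smul (hA s) h1 r (h2 s)⟩

theorem kernel_stable (hZ : Z.IsChow) {S : Type} {A : S → AbelJacobi.{u, v, w} Z}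
    (hA : ∀ s, (A s).IsAbelJacobi) {a c : ℕ} (x : X.Corr a c) {z : Z.CH a}
    (hz : z ∈ kernel hZ hA a) : Z.act x z ∈ kernel hZ hA c := by
  obtain ⟨h1, h2⟩ := hz
  refine ⟨by rw [hZ.cl_act, h1, Matrix.mulVec_zero], fun s => ?_⟩
  exact AbelJacobi.isZero_act (hA s) x h1 (h2 s)

end

end Pool.Agent.K4H67.QW
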