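import Pool.Agent.K4H10.QM.Quant
import Pool.Agent.K4H67.QW.Over

/-!
# The quantization law for modules over the correspondences of a variety
-/

set_option autoImplicit false
set_option linter.unusedSectionVars false

namespace Pool.Agent.K4H67.QW

open Matrix Module Filter Topology Pool.Agent.K4H54.PL Pool.Agent.K4H10.QM Pool.Agent.K4H35.QB

noncomputable section

universe u w

variable {k : Type} [Field k] {X : ChowPowers.{u} k}

/-- An action of the correspondences between the powers of `X` on the spaces `H m`. -/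
structure CorrModule (X : ChowPowers.{u} k) (H : ℕ → Type w) [∀ m, AddCommGroup (H m)]
    [∀ m, Module k (H m)] where
  /-- the action of the correspondences -/
  act : ∀ {a c : ℕ}, X.Corr a c →ₗ[k] H a →ₗ[k] H c
  act_comp : ∀ {a b c : ℕ} (x : X.Corr b c) (y : X.Corr a b) (z : H a),
    act (X.comp x y) z = act x (act y z)
  act_diag : ∀ (a : ℕ) (z : H a), act (X.diag a) z = z

/-- The family of subspaces is stable under the correspondences. -/
def CorrModule.IsStable {H : ℕ → Type w} [∀ m, AddCommGroup (H m)] [∀ m, Module k (H m)]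
    (M : CorrModule X H) (F : ∀ m, Submodule k (H m)) : Prop :=
  ∀ (a c : ℕ) (x : X.Corr a c), ∀ z ∈ F a, M.act x z ∈ F c

/-- The Chow groups of the powers of `X`. -/
def chowModule (X : ChowPowers.{u} k) (hX : X.IsChow) : CorrModule X (fun m => X.CH m) where
  act {a c} := hX.compL 0 a c
  act_comp x y z := hX.comp_assoc x y z
  act_diag _ z := hX.diag_comp z

/-- The Chow groups of the products `X ^ m × Z`. -/
def overModule (Z : ChowOver.{u, w} X) (hZ : Z.IsChow) : CorrModule X Z.CH where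
  act {a c} := hZ.actL a c
  act_comp x y z := hZ.act_comp x y z
  act_diag a z := hZ.act_diag a z

theorem clo (hX : X.IsChow) : Cl X.IsAlg where
  add := by
    rintro a c _ _ ⟨x, rfl⟩ ⟨y, rfl⟩
    exact ⟨x + y, hX.cl_add _ _⟩
  smul := by
    rintro a c r _ ⟨x, rfl⟩
    exact ⟨r • x, hX.cl_smul _ _⟩
  comp := by
    rintro a b c _ _ ⟨x, rfl⟩ ⟨y, rfl⟩
    exact ⟨X.comp y x, hX.cl_comp y x⟩
  prod := by
    rintro a c a' c' _ _ ⟨x, rfl⟩ ⟨y, rfl⟩
    exact hX.exterior x y

theorem alg_zero (hX : X.IsChow) (a c : ℕ) : X.IsAlg a c 0 := ⟨0, hX.cl_zero a c⟩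

theorem planar (hX : X.IsChow) : Pl X.IsAlg X.q X.q⁻¹ X.one X.pt where
  clo := clo hX
  h0 := ⟨X.diag 0, hX.cl_diag 0⟩
  h1 := ⟨X.diag 1, hX.cl_diag 1⟩
  form := hX.form
  unit := hX.unit
  pt := hX.point
  inv := Matrix.mul_nonsing_inv _ (isUnit_iff_ne_zero.2 hX.det_ne)
  ne := hX.pairing

theorem pair (hX : X.IsChow) : Pair X.IsAlg X.IsAlg X.q X.q⁻¹ X.one X.pt X.deg where
  pl := planar hX
  clo := clo hX
  zero := alg_zero hX
  le := id
  inverse := hX.diagonalClass
  symm := hX.symmetry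

theorem rig (hX : X.IsChow) : K4H10.QZ.Rig X.IsAlg X.q X.q⁻¹ (fun i => (-1 : k) ^ X.deg i) where
  clo := clo hX
  zero := alg_zero hX
  idn := (planar hX).idn
  form := hX.form
  inverse := hX.diagonalClass
  inv := (planar hX).inv
  sgn := fun i => neg_one_pow_eq_or k (X.deg i)
  sym := hX.symm
  par := by
    rintro m x ⟨z, hz⟩ V hV
    rw [Finset.prod_pow_eq_pow_sum]
    refine Even.neg_one_pow (hX.even m z V Fin.elim0 ?_)
    rw [hz]
    exact hV

theorem nondeg (hX : X.IsChow) (hN : X.NumIsHom) : K4H10.QZ.Nondeg X.IsAlg := by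
  rintro m x ⟨z, hz⟩ h
  have h1 : X.cl z = 0 := by
    refine hN m z fun y => ?_
    obtain ⟨φ, hφ⟩ := exists_ro (X.cl y)
    rw [hX.cl_comp, hφ, hz]
    ext u v
    rw [ro_mul_cl, h φ ⟨y, hφ⟩]
    rfl
  funext u
  have h2 : X.cl z u Fin.elim0 = 0 := by rw [h1]; rfl
  rw [hz] at h2
  exact h2

theorem act_pow {H : ℕ → Type w} [∀ m, AddCommGroup (H m)] [∀ m, Module k (H m)]
    (M : CorrModule X H) {a : ℕ} (x : X.Corr a a) (z : H a) (r : ℕ) :
    (M.act x)^[r] z = M.act (X.pow x r) z := by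
  induction r with
  | zero => exact (M.act_diag a z).symm
  | succ r ih =>
    rw [Function.iterate_succ_apply', ih]
    exact (M.act_comp x (X.pow x r) z).symm

/-- The action, in the form of the abstract law. -/
def acts (hX : X.IsChow) (hK : X.Nilpotence) {H : ℕ → Type w} [∀ m, AddCommGroup (H m)]
    [∀ m, Module k (H m)] (M : CorrModule X H) : Acts X.IsAlg X.Corr H where
  cl {a c} := hX.clL a c
  comp := fun x y => X.comp x y
  one := X.diag
  act := M.act
  mem := fun x => ⟨x, rfl⟩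
  surj := fun _ h => h
  cl_comp := hX.cl_comp
  cl_one := hX.cl_diag
  act_comp := M.act_comp
  act_one := M.act_diag
  nil := by
    intro a x hx z
    obtain ⟨r, hr⟩ := hK a x hx
    refine ⟨r, ?_⟩
    rw [act_pow, hr, map_zero, LinearMap.zero_apply]

theorem classDim_eq (hX : X.IsChow) (m : ℕ) :
    X.classDim m = finrank k (BB X.IsAlg (clo hX) (alg_zero hX) m) := by
  have h0 : Submodule.span k (Set.range fun z : X.CH m => X.cl z) =
      LinearMap.range (hX.clL 0 m) :=
    Submodule.span_eq (LinearMap.range (hX.clL 0 m))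
  have h1 : Submodule.span k (Set.range fun z : X.CH m => X.cl z) =
      (BB X.IsAlg (clo hX) (alg_zero hX) m).map (clL k X.ι m) := by
    rw [h0]
    ext F
    constructor
    · rintro ⟨z, rfl⟩
      obtain ⟨x, hx⟩ := exists_cl (X.cl z)
      exact ⟨x, ⟨z, hx⟩, hx.symm⟩
    · rintro ⟨x, ⟨z, hz⟩, rfl⟩
      exact ⟨z, hz⟩
  unfold ChowPowers.classDim
  rw [h1]
  exact (LinearEquiv.finrank_eq (Submodule.equivMapOfInjective _ (clL_injective m) _)).symm

/-- **The quantization law for modules over correspondences.** -/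
theorem quant [CharZero k] (hX : X.IsChow) (hK : X.Nilpotence) (hN : X.NumIsHom)
    {H : ℕ → Type w} [∀ m, AddCommGroup (H m)] [∀ m, Module k (H m)] (M : CorrModule X H)
    {F : ∀ m, Submodule k (H m)} (hF : M.IsStable F) :
    (∀ K : ℕ, ∀ᶠ m in atTop, ((K * X.classDim m : ℕ) : Cardinal) ≤ Module.rank k (F m)) ∨
      ((∀ m, FiniteDimensional k (F m)) ∧ ∃ K : ℕ,
        Tendsto (fun m => (finrank k (F m) : ℝ) / X.classDim m) atTop (𝓝 K) ∧
        (K = 0 → ∀ m, F m = ⊥)) := by
  simp only [classDim_eq hX]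
  exact quant_mod (pair hX) (rig hX) (nondeg hX hN) (acts hX hK M) (fun {a c} x z hz => hF a c x z hz)

theorem classDim_pos (hX : X.IsChow) (m : ℕ) : 0 < X.classDim m := by
  rw [classDim_eq hX]
  exact pos_B (pair hX) m

/-- The number `b_m` grows like `D ^ m`, `D` the total Betti number, up to a polynomial in `m`. -/
theorem growth [CharZero k] (hX : X.IsChow) : ∃ c : ℕ, ∀ m : ℕ,
    Fintype.card X.ι ^ m ≤ X.classDim m * c * (m + 1) ^ c := by
  obtain ⟨c, hc⟩ := low_B (pair hX)
  exact ⟨c, fun m => by rw [classDim_eq hX]; exact hc m⟩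

/-- If one space is not zero then the dimension is at least `b_m / 2` for all large `m`. -/
theorem half_of_ne_bot [CharZero k] (hX : X.IsChow) (hK : X.Nilpotence) (hN : X.NumIsHom)
    {H : ℕ → Type w} [∀ m, AddCommGroup (H m)] [∀ m, Module k (H m)] (M : CorrModule X H)
    {F : ∀ m, Submodule k (H m)} (hF : M.IsStable F) {m₀ : ℕ} (hm₀ : F m₀ ≠ ⊥) :
    ∀ᶠ m in atTop, (X.classDim m : Cardinal) ≤ 2 * Module.rank k (F m) := by
  rcases quant hX hK hN M hF with h1 | ⟨h1, K, h2, h3⟩
  · filter_upwards [h1 1] with m hm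
    rw [one_mul] at hm
    calc (X.classDim m : Cardinal) ≤ Module.rank k (F m) := hm
      _ = 1 * Module.rank k (F m) := (one_mul _).symm
      _ ≤ 2 * Module.rank k (F m) := mul_le_mul_left (by exact_mod_cast one_le_two) _
  · have hK0 : K ≠ 0 := fun h => hm₀ (h3 h m₀)
    have h4 : (1 : ℝ) ≤ K := by exact_mod_cast Nat.one_le_iff_ne_zero.2 hK0
    have h5 : ∀ᶠ m in atTop, (1 / 2 : ℝ) < (finrank k (F m) : ℝ) / X.classDim m :=
      h2.eventually (lt_mem_nhds (by linarith))
    filter_upwards [h5] with m hm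
    have hpos : (0 : ℝ) < X.classDim m := by exact_mod_cast classDim_pos hX m
    rw [lt_div_iff₀ hpos] at hm
    have h6 : (X.classDim m : ℝ) ≤ 2 * finrank k (F m) := by linarith
    have h7 : X.classDim m ≤ 2 * finrank k (F m) := by exact_mod_cast h6
    have := h1 m
    rw [← finrank_eq_rank]
    exact_mod_cast h7

/-- If one space is not zero then the dimension grows like `D ^ m`, `D` the total Betti number of `X`,
up to a polynomial in `m`. -/
theorem exp_of_ne_bot [CharZero k] (hX : X.IsChow) (hK : X.Nilpotence) (hN : X.NumIsHom)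
    {H : ℕ → Type w} [∀ m, AddCommGroup (H m)] [∀ m, Module k (H m)] (M : CorrModule X H)
    {F : ∀ m, Submodule k (H m)} (hF : M.IsStable F) {m₀ : ℕ} (hm₀ : F m₀ ≠ ⊥) :
    ∃ c : ℕ, ∀ᶠ m in atTop, ((Fintype.card X.ι ^ m : ℕ) : Cardinal) ≤
      ((c * (m + 1) ^ c : ℕ) : Cardinal) * Module.rank k (F m) := by
  obtain ⟨c, hc⟩ := growth hX
  refine ⟨2 * c, ?_⟩
  filter_upwards [half_of_ne_bot hX hK hN M hF hm₀] with m hm
  have h1 : (Fintype.card X.ι ^ m : ℕ) ≤ (c * (m + 1) ^ (2 * c)) * X.classDim m := by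
    calc Fintype.card X.ι ^ m ≤ X.classDim m * c * (m + 1) ^ c := hc m
      _ ≤ X.classDim m * c * (m + 1) ^ (2 * c) :=
        Nat.mul_le_mul_left _ (Nat.pow_le_pow_right (Nat.succ_pos m) (by omega))
      _ = (c * (m + 1) ^ (2 * c)) * X.classDim m := by ring
  calc ((Fintype.card X.ι ^ m : ℕ) : Cardinal)
      ≤ (((c * (m + 1) ^ (2 * c)) * X.classDim m : ℕ) : Cardinal) := Nat.cast_le.2 h1
    _ = ((c * (m + 1) ^ (2 * c) : ℕ) : Cardinal) * (X.classDim m : Cardinal) := Nat.cast_mul _ _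
    _ ≤ ((c * (m + 1) ^ (2 * c) : ℕ) : Cardinal) * (2 * Module.rank k (F m)) :=
      mul_le_mul_right hm _
    _ = ((2 * c * (m + 1) ^ (2 * c) : ℕ) : Cardinal) * Module.rank k (F m) := by
      push_cast
      ring

/-- If the dimension is at most `(1 - ε) b_m` for infinitely many `m` then everything is zero. -/
theorem bot_of_frequently [CharZero k] (hX : X.IsChow) (hK : X.Nilpotence) (hN : X.NumIsHom)
    {H : ℕ → Type w} [∀ m, AddCommGroup (H m)] [∀ m, Module k (H m)] (M : CorrModule X H)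
    {F : ∀ m, Submodule k (H m)} (hF : M.IsStable F) {ε : ℝ} (hε : 0 < ε)
    (h : ∃ᶠ m in atTop, FiniteDimensional k (F m) ∧
      (finrank k (F m) : ℝ) ≤ (1 - ε) * X.classDim m) : ∀ m, F m = ⊥ := by
  have hpos : ∀ m, (0 : ℝ) < X.classDim m := fun m => by exact_mod_cast classDim_pos hX m
  rcases quant hX hK hN M hF with h1 | ⟨h1, K, h2, h3⟩
  · exfalso
    obtain ⟨m, ⟨hfd, hm⟩, hm'⟩ := (h.and_eventually (h1 1)).exists
    rw [← finrank_eq_rank, Nat.cast_le, one_mul] at hm'
    have h4 : (X.classDim m : ℝ) ≤ finrank k (F m) := by exact_mod_cast hm'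
    nlinarith [hpos m]
  · apply h3
    by_contra hK0
    have h4 : (1 : ℝ) ≤ K := by exact_mod_cast Nat.one_le_iff_ne_zero.2 hK0
    have h5 : ∀ᶠ m in atTop, 1 - ε < (finrank k (F m) : ℝ) / X.classDim m :=
      h2.eventually (lt_mem_nhds (by linarith))
    obtain ⟨m, ⟨-, hm⟩, hm'⟩ := (h.and_eventually h5).exists
    rw [lt_div_iff₀ (hpos m)] at hm'
    linarith

end

end Pool.Agent.K4H67.QW
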