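import Mathlib

/-!
# Chow groups and correspondences of the powers of a variety

`X` is a smooth projective variety, `H(X)` its cohomology with coefficients in the field `k` of
characteristic zero, in a homogeneous basis `ι`; the cohomology of `X ^ m` has the basis
`Fin m → ι` (formula of Künneth).
-/

set_option autoImplicit false

namespace Pool.Agent.K4H67.QW

open Matrix

noncomputable section

universe u

/-- The data of the Chow groups of the powers of a smooth projective variety `X` with coefficients in
`k`, of the composition of correspondences, and of the classes of cycles in the cohomology with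
coefficients in `k`. -/
structure ChowPowers (k : Type) [Field k] where
  /-- a homogeneous basis of the cohomology `H(X)` -/
  ι : Type
  fin : Fintype ι
  dec : DecidableEq ι
  /-- the degrees of the elements of the basis -/
  deg : ι → ℕ
  /-- the matrix of the intersection form `(x, y) ↦ ∫ x ∪ y` -/
  q : Matrix ι ι k
  /-- the unit class -/
  one : ι → k
  /-- the class of a point -/
  pt : ι → k
  /-- `Corr a c` is the space of the correspondences from `X ^ a` to `X ^ c`, the Chow group
  `CH(X ^ a × X ^ c)` (of all codimensions) with coefficients in `k` -/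
  Corr : ℕ → ℕ → Type u
  addCommGroup : ∀ a c, AddCommGroup (Corr a c)
  module : ∀ a c, Module k (Corr a c)
  /-- the composition of correspondences -/
  comp : ∀ {a b c : ℕ}, Corr b c → Corr a b → Corr a c
  /-- the diagonal -/
  diag : ∀ a : ℕ, Corr a a
  /-- the linear map `H(X ^ a) → H(X ^ c)` induced by the class of a correspondence -/
  cl : ∀ {a c : ℕ}, Corr a c → Matrix (Fin c → ι) (Fin a → ι) k

attribute [instance] ChowPowers.fin ChowPowers.dec ChowPowers.addCommGroup ChowPowers.module

variable {k : Type} [Field k]

namespace ChowPowers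

variable (X : ChowPowers.{u} k)

/-- The Chow group of `X ^ m` (of all codimensions): the correspondences from the point. -/
abbrev CH (m : ℕ) : Type u := X.Corr 0 m

/-- The map `F : H(X ^ a) → H(X ^ c)` is induced by the class of a cycle. -/
def IsAlg (a c : ℕ) (F : Matrix (Fin c → X.ι) (Fin a → X.ι) k) : Prop :=
  ∃ x : X.Corr a c, X.cl x = F

/-- The exterior product `H(X ^ (a + a')) → H(X ^ (c + c'))` of the maps `F : H(X ^ a) → H(X ^ c)`
and `G : H(X ^ a') → H(X ^ c')`. -/
def ext {a c a' c' : ℕ} (F : Matrix (Fin c → X.ι) (Fin a → X.ι) k)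
    (G : Matrix (Fin c' → X.ι) (Fin a' → X.ι) k) :
    Matrix (Fin (c + c') → X.ι) (Fin (a + a') → X.ι) k :=
  Matrix.of fun x y => F (fun i => x (Fin.castAdd c' i)) (fun i => y (Fin.castAdd a' i)) *
    G (fun i => x (Fin.natAdd c i)) (fun i => y (Fin.natAdd a i))

/-- Composition and classes are additive. -/
structure IsAdditive : Prop where
  add_comp : ∀ {a b c : ℕ} (x x' : X.Corr b c) (y : X.Corr a b),
    X.comp (x + x') y = X.comp x y + X.comp x' y
  comp_add : ∀ {a b c : ℕ} (x : X.Corr b c) (y y' : X.Corr a b),
    X.comp x (y + y') = X.comp x y + X.comp x y'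
  cl_add : ∀ {a c : ℕ} (x y : X.Corr a c), X.cl (x + y) = X.cl x + X.cl y

/-- Composition and classes are compatible with the multiplication by scalars. -/
structure IsHomogeneous : Prop where
  smul_comp : ∀ {a b c : ℕ} (r : k) (x : X.Corr b c) (y : X.Corr a b),
    X.comp (r • x) y = r • X.comp x y
  comp_smul : ∀ {a b c : ℕ} (r : k) (x : X.Corr b c) (y : X.Corr a b),
    X.comp x (r • y) = r • X.comp x y
  cl_smul : ∀ {a c : ℕ} (r : k) (x : X.Corr a c), X.cl (r • x) = r • X.cl x

/-- The correspondences form a category, and their classes a functor. -/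
structure IsCategory : Prop where
  comp_assoc : ∀ {a b c d : ℕ} (x : X.Corr c d) (y : X.Corr b c) (z : X.Corr a b),
    X.comp (X.comp x y) z = X.comp x (X.comp y z)
  diag_comp : ∀ {a c : ℕ} (x : X.Corr a c), X.comp (X.diag c) x = x
  comp_diag : ∀ {a c : ℕ} (x : X.Corr a c), X.comp x (X.diag a) = x
  cl_comp : ∀ {a b c : ℕ} (x : X.Corr b c) (y : X.Corr a b), X.cl (X.comp x y) = X.cl x * X.cl y
  cl_diag : ∀ a : ℕ, X.cl (X.diag a) = 1

/-- Exterior products of algebraic classes are algebraic. -/
structure HasExterior : Prop where
  exterior : ∀ {a c a' c' : ℕ} (x : X.Corr a c) (y : X.Corr a' c'),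
    X.IsAlg (a + a') (c + c') (X.ext (X.cl x) (X.cl y))

/-- The classes which are algebraic on the powers of every variety. -/
structure HasClasses : Prop where
  /-- the unit class is algebraic -/
  unit : X.IsAlg 0 1 (Matrix.of fun x _ => X.one (x 0))
  /-- the class of a point is algebraic -/
  point : X.IsAlg 0 1 (Matrix.of fun x _ => X.pt (x 0))
  /-- the intersection form `H(X × X) → k` is given by the diagonal -/
  form : X.IsAlg 2 0 (Matrix.of fun _ y => X.q (y 0) (y 1))
  /-- the class of the diagonal in `H(X × X)` -/
  diagonalClass : X.IsAlg 0 2 (Matrix.of fun x _ => X.q⁻¹ (x 0) (x 1))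

/-- The graph of the symmetry of `X × X`, which acts on `H(X × X)` by
`x × y ↦ (-1) ^ (deg x * deg y) y × x`, is algebraic. -/
structure HasSymmetry : Prop where
  symmetry : X.IsAlg 2 2 (Matrix.of fun x y =>
    if x 0 = y 1 ∧ x 1 = y 0 then (-1) ^ (X.deg (x 0) * X.deg (x 1)) else 0)

/-- Poincaré duality, and the degrees of the classes of cycles. -/
structure IsDual : Prop where
  det_ne : X.q.det ≠ 0
  symm : ∀ i j, X.q j i = (-1) ^ X.deg i * X.q i j
  pairing : X.one ⬝ᵥ X.q *ᵥ X.pt ≠ 0
  /-- the classes of cycles on `X ^ m` have even degrees -/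
  even : ∀ (m : ℕ) (z : X.CH m) (x : Fin m → X.ι) (y : Fin 0 → X.ι), X.cl z x y ≠ 0 →
    Even (∑ i, X.deg (x i))

/-- The formal properties of correspondences and their classes, known for every smooth projective
variety. -/
structure IsChow : Prop extends X.IsAdditive, X.IsHomogeneous, X.IsCategory, X.HasExterior,
  X.HasClasses, X.HasSymmetry, X.IsDual

/-- The powers of a self-correspondence. -/
def pow {a : ℕ} (x : X.Corr a a) : ℕ → X.Corr a a
  | 0 => X.diag a
  | r + 1 => X.comp x (pow x r)

/-- The motive of `X` is finite-dimensional, in the form of the nilpotence theorem of Kimura: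
homologically trivial self-correspondences of the powers of `X` are nilpotent. (`X.Corr a a` contains
the correspondences of all degrees and their sums; a sum of homologically trivial correspondences of
several degrees is nilpotent by the theorem of Kimura for the sum of the Tate twists of the motive of
`X ^ a` by `-n, ..., n`, `n = dim X ^ a`.) -/
def Nilpotence : Prop :=
  ∀ (a : ℕ) (x : X.Corr a a), X.cl x = 0 → ∃ r : ℕ, X.pow x r = 0

/-- Numerical and homological equivalence agree on the powers of `X`: a cycle `z` on `X ^ m` is
homologically trivial if all its intersection numbers `y ∘ z` with the cycles `y` on `X ^ m` are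
zero. -/
def NumIsHom : Prop :=
  ∀ (m : ℕ) (z : X.CH m), (∀ y : X.Corr m 0, X.cl (X.comp y z) = 0) → X.cl z = 0

/-- The dimension of the space of the classes of cycles in the cohomology of `X ^ m`. -/
def classDim (m : ℕ) : ℕ := Module.finrank k (Submodule.span k (Set.range fun z : X.CH m => X.cl z))

variable {X}

/-- The classes, as a linear map. -/
def IsChow.clL (hX : X.IsChow) (a c : ℕ) : X.Corr a c →ₗ[k] Matrix (Fin c → X.ι) (Fin a → X.ι) k where
  toFun := X.cl
  map_add' := hX.cl_add
  map_smul' := hX.cl_smul

/-- The composition, as a bilinear map. -/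
def IsChow.compL (hX : X.IsChow) (a b c : ℕ) : X.Corr b c →ₗ[k] X.Corr a b →ₗ[k] X.Corr a c :=
  LinearMap.mk₂ k X.comp hX.add_comp hX.smul_comp hX.comp_add hX.comp_smul

theorem IsChow.cl_zero (hX : X.IsChow) (a c : ℕ) : X.cl (0 : X.Corr a c) = 0 :=
  map_zero (hX.clL a c)

end ChowPowers

end

end Pool.Agent.K4H67.QW
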